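import Pool.Agent.H77.Qb

open Pool.Agent.H77.Qb

theorem Pool.Agent.Results.MP_81d707_al.AllFinite.result (S : Type) [Semigroup S] [Finite S]
    (h : HasL S ∨ HasR S) : ¬ FinQB S :=
  h.elim mainL mainR
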